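import Pool.Agent.Helper58.RoeCompact

set_option autoImplicit false

namespace Pool.Agent.Results.MP_ab5103_an.NoCompactCutdown

open Pool.Agent.Helper58.Roe

/-- **Negative answer to Q2 of `MP_ab5103_an`, also under property A.** There are uniformly
locally finite metric spaces `X`, `Y`, where `Y` has property A, and a (unital) embedding
`Φ` of the uniform Roe algebra of `X` into that of `Y`, such that for no projection `p` in the
relative commutant of the image of `Φ` the map `a ↦ p Φ(a) p` is a compact preserving
embedding. -/
theorem result : ∃ (X Y : Type) (_ : MetricSpace X) (_ : MetricSpace Y),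
    ULF X ∧ ULF Y ∧ PropertyA Y ∧
    ExistsEmbeddingWithoutCompactCutdown (stdBasis X) (stdBasis Y) :=
  Pool.Agent.Helper58.RoeCompact.main

end Pool.Agent.Results.MP_ab5103_an.NoCompactCutdown
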